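import Pool.Agent.R632.BC.Ge

/-!
# Splittings over commensurated subgroups, in classes of groups closed under extensions
-/

set_option autoImplicit false

namespace Pool.Agent.R632.BC

open Pool.Agent.Y110.FJ HNNExtension
open Pool.Agent.R779.BC (ExtCl ext_hom triv int_mem am hn W_extCl fg_le)
open Pool.Agent.R941.BC (Inherit W W_fin W_over W_ext)
open Pool.Agent.R632.CM

variable {C : ∀ (G : Type) [Group G], Prop}

theorem splits_ker (hC : ExtCl C) {G P : Type} [Group G] [Group P]
    {Γ : Subgroup G} (f : G →* P)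
    (hf : ∀ g : G, f g = 1 → ∃ H : Subgroup G, H ≤ Γ ∧ H.relIndex Γ ≠ 0 ∧ ∀ x ∈ H, g * x = x * g)
    (H : Type) [Group H] (j : H →* G) (h : Splits C Γ H j) : C (f.comp j).ker := by
  induction h with
  | vertex H j h => exact hC.sub _ H (Subgroup.subtype _) Subtype.val_injective h
  | amalgam H j A B K hamg hK _ _ ihA ihB =>
    refine am hC A B K hamg (f.comp j) (fun k hk h1 => ?_) ihA ihB
    obtain ⟨L, hL, hL2, hL3⟩ := hf (j k) h1
    exact hK k hk L hL hL2 hL3
  | hnn M A B φ j hA _ ih =>
    refine hn hC (f.comp j) (fun k hk h1 => ?_) ih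
    obtain ⟨L, hL, hL2, hL3⟩ := hf (j (of k)) h1
    exact hA k hk L hL hL2 hL3
  | iso H H' e j _ ih =>
    refine hC.sub _ (f.comp j).ker
      { toFun := fun x => ⟨e x.1, x.2⟩
        map_one' := Subtype.ext (map_one e)
        map_mul' := fun x y => Subtype.ext (map_mul e x.1 y.1) } ?_ ih
    intro x y hxy
    exact Subtype.ext (e.injective (congrArg (fun z : (f.comp j).ker => (z : H')) hxy))
  | union H j I K hI hK hg _ ih =>
    refine hC.union _ fun L hL => ?_
    have hL' : (L.map (f.comp j).ker.subtype).FG := by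
      obtain ⟨E, rfl⟩ := hL
      classical
      refine ⟨E.image (f.comp j).ker.subtype, ?_⟩
      rw [Finset.coe_image, MonoidHom.map_closure]
    obtain ⟨i, hi⟩ := fg_le K hK hg _ hL'
    refine hC.sub _ (f.comp (j.comp (K i).subtype)).ker
      { toFun := fun x => ⟨⟨x.1.1, hi ⟨x.1, x.2, rfl⟩⟩, x.1.2⟩
        map_one' := rfl
        map_mul' := fun _ _ => rfl } ?_ (ih i)
    intro x y hxy
    exact Subtype.ext (Subtype.ext
      (congrArg (fun z : (f.comp (j.comp (K i).subtype)).ker => ((z : K i) : H)) hxy))

/-- **Splittings over subgroups that act faithfully up to commensurability.** -/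
theorem splits_mem (hC : ExtCl C) {G P : Type} [Group G] [Group P]
    {Γ : Subgroup G} (hΓ : Commensurated Γ) (i : Γ →* P) (hi : RealizesComm i) (hP : C P)
    (H : Type) [Group H] (j : H →* G) (h : Splits C Γ H j) : C H := by
  obtain ⟨f, -, hf⟩ := exists_ext hΓ i hi
  exact ext_hom hC (f.comp j) (splits_ker hC f hf H j h) hP

theorem amalgam_fin (hC : ExtCl C) (hfc : FinCl C) {G P : Type} [Group G]
    [Group P] (A B K : Subgroup G) (hamg : Amg A B K) (hA : K.relIndex A ≠ 0)
    (hB : K.relIndex B ≠ 0) (i : K →* P) (hi : RealizesComm i) (hP : C P) : C G := by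
  have hCK : C K := hC.sub K P i hi.inj hP
  have hfin : ∀ A : Subgroup G, K ≤ A → K.relIndex A ≠ 0 → C A := by
    intro A hle h
    refine hfc A (K.subgroupOf A) ⟨h⟩ ?_
    exact hC.sub _ K (Subgroup.subgroupOfEquivOfLe hle).toMonoidHom
      (MulEquiv.injective _) hCK
  have hcomm : Commensurated K := by
    apply commensurated_of_top
    rw [← hamg.gen]
    exact sup_le (le_comm K hamg.le_left hA) (le_comm K hamg.le_right hB)
  refine splits_mem hC hcomm i hi hP G (MonoidHom.id G) ?_
  refine Splits.amalgam G _ A B K hamg ?_ (Splits.vertex A _ (hfin A hamg.le_left hA))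
    (Splits.vertex B _ (hfin B hamg.le_right hB))
  intro k hk L hL hL2 hL3
  have h1 := hi.uniq (L.subgroupOf K) (i ⟨k, hk⟩) ⟨hL2⟩ ?_
  · have h2 : (⟨k, hk⟩ : K) = 1 := hi.inj (by rw [h1, map_one])
    exact congrArg Subtype.val h2
  · intro x hx
    rw [← map_mul, ← map_mul]
    congr 1
    exact Subtype.ext (hL3 x hx)

/-- HNN extensions with associated subgroups of finite index. -/
theorem hnn_fin (hC : ExtCl C) {M P : Type} [Group M]
    [Group P] (A B : Subgroup M) (φ : A ≃* B) (hA : A.FiniteIndex) (hB : B.FiniteIndex)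
    (i : (of : M →* HNNExtension M A B φ).range →* P) (hi : RealizesComm i) (hP : C P) :
    C (HNNExtension M A B φ) := by
  have hCM : C M := hC.sub M P
    (i.comp (of : M →* HNNExtension M A B φ).rangeRestrict)
    (hi.inj.comp (fun a b h => HNNExtension.of_injective φ (congrArg Subtype.val h))) hP
  have hrel : ∀ S : Subgroup M, S.FiniteIndex →
      (S.map (of : M →* HNNExtension M A B φ)).relIndex (of : M →* HNNExtension M A B φ).range
        ≠ 0 := by
    intro S hS
    rw [MonoidHom.range_eq_map, Subgroup.relIndex_map_map_of_injective _ _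
      (HNNExtension.of_injective φ), Subgroup.relIndex_top_right]
    exact hS.index_ne_zero
  have hconj : (A.map (of : M →* HNNExtension M A B φ)).map (MulAut.conj t).toMonoidHom =
      B.map of := by
    ext x
    constructor
    · rintro ⟨_, ⟨a, ha, rfl⟩, rfl⟩
      refine ⟨φ ⟨a, ha⟩, (φ ⟨a, ha⟩).2, ?_⟩
      rw [equiv_eq_conj]
      rfl
    · rintro ⟨b, hb, rfl⟩
      refine ⟨of ((φ.symm ⟨b, hb⟩ : A) : M), ⟨_, (φ.symm ⟨b, hb⟩ : A).2, rfl⟩, ?_⟩
      have h1 := equiv_eq_conj (φ := φ) (φ.symm ⟨b, hb⟩)
      rw [MulEquiv.apply_symm_apply] at h1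
      exact h1.symm
  have hcomm : Commensurated (of : M →* HNNExtension M A B φ).range := by
    apply commensurated_of_top
    intro g _
    induction g using HNNExtension.induction_on with
    | of m =>
      exact le_comm (of : M →* HNNExtension M A B φ).range le_rfl
        (by rw [Subgroup.relIndex_self]; exact one_ne_zero) ⟨m, rfl⟩
    | t =>
      rw [mem_comm]
      have h1 : B.map (of : M →* HNNExtension M A B φ) ≤
          (of : M →* HNNExtension M A B φ).range.map (MulAut.conj t).toMonoidHom := by
        rw [← hconj]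
        exact Subgroup.map_mono (Subgroup.map_le_range _ _)
      constructor
      · exact fun h0 => hrel B hB (Subgroup.relIndex_eq_zero_of_le_left h1 h0)
      · intro h0
        have h2 : (B.map (of : M →* HNNExtension M A B φ)).relIndex
            ((of : M →* HNNExtension M A B φ).range.map (MulAut.conj t).toMonoidHom) = 0 :=
          Subgroup.relIndex_eq_zero_of_le_left (Subgroup.map_le_range _ _) h0
        rw [← hconj, Subgroup.relIndex_map_map_of_injective _ _ (MulEquiv.injective _)] at h2
        exact hrel A hA h2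
    | mul a b ha hb => exact Subgroup.mul_mem _ (ha (Subgroup.mem_top _)) (hb (Subgroup.mem_top _))
    | inv a ha => exact Subgroup.inv_mem _ (ha (Subgroup.mem_top _))
  refine splits_mem hC hcomm i hi hP _ (MonoidHom.id _) ?_
  refine Splits.hnn M A B φ _ ?_ (Splits.vertex M _ hCM)
  intro k _ L hL hL2 hL3
  have h1 := hi.uniq (L.subgroupOf _) (i ⟨of k, ⟨k, rfl⟩⟩) ⟨hL2⟩ ?_
  · have h2 : (⟨of k, ⟨k, rfl⟩⟩ : (of : M →* HNNExtension M A B φ).range) = 1 :=
      hi.inj (by rw [h1, map_one])
    exact (map_eq_one_iff of (HNNExtension.of_injective φ)).1 (congrArg Subtype.val h2)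
  · intro x hx
    rw [← map_mul, ← map_mul]
    congr 1
    exact Subtype.ext (hL3 x hx)

/-! ### the class `W B` -/

variable {B S : ∀ (G : Type) [Group G], Prop}

theorem W_finCl : FinCl (W B) := fun G _ L hL h => W_fin G L hL h

/-- extensions by an embedded normal subgroup of a group in `W B` -/
theorem W_norm (h : Inherit B S) {N : Type} [Group N] (hN : W B N) (G : Type) [Group G]
    (f : N →* G) (hf : Function.Injective f) [f.range.Normal] [Countable G] :
    (B (G ⧸ f.range) → B G) ∧ (S (G ⧸ f.range) → S G) := by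
  have hr : W B f.range := Pool.Agent.R941.BC.W_sub _ N
    (MonoidHom.ofInjective hf).symm.toMonoidHom (MulEquiv.injective _) hN
  exact ⟨fun hB => h.ext G f.range hB (W_over G f.range hr),
    fun hS => h.extS G f.range hS (W_over G f.range hr)⟩

end Pool.Agent.R632.BC
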