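import Pool.Agent.R632.GE.Tri
import Pool.Agent.R632.CM.Fin
import Pool.Agent.R779.BC.Rh

/-!
# Groups over filtered rings and splittings over commensurated subgroups, in classes of groups closed
under extensions
-/

set_option autoImplicit false

namespace Pool.Agent.R632.BC

open Pool.Agent.Y110.FJ
open Pool.Agent.R779.BC (ExtCl ext_hom triv int_mem am hn W_extCl)
open Pool.Agent.R941.BC (Inherit W W_fin W_over W_ext)

/-- closed under overgroups of finite index -/
def FinCl (C : ∀ (G : Type) [Group G], Prop) : Prop :=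
  ∀ (G : Type) [Group G] (L : Subgroup G), L.FiniteIndex → C L → C G

section abelian

variable {C : ∀ (G : Type) [Group G], Prop}

theorem fin_mem (hC : ExtCl C) (hf : FinCl C) (G : Type) [Group G] [Finite G] : C G :=
  hf G ⊥ inferInstance (triv hC _)

theorem cyc_mem (hC : ExtCl C) (hf : FinCl C) (Q : Type) [Group Q] (hQ : IsCyclic Q) : C Q := by
  rcases finite_or_infinite Q with h | h
  · exact fin_mem hC hf Q
  · have e := zmodCyclicMulEquiv hQ
    have h0 : Nat.card Q = 0 := Nat.card_eq_zero_of_infinite
    rw [h0] at e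
    exact hC.sub Q (Multiplicative ℤ) e.symm.toMonoidHom e.symm.injective (int_mem hC)

theorem closure_mem (hC : ExtCl C) (hf : FinCl C) {G : Type} [Group G]
    (h : ∀ a b : G, a * b = b * a) (E : Finset G) : C (Subgroup.closure (E : Set G)) := by
  classical
  induction E using Finset.induction_on with
  | empty =>
    have : Subsingleton (Subgroup.closure ((∅ : Finset G) : Set G)) := by
      rw [Finset.coe_empty, Subgroup.closure_empty]
      infer_instance
    exact triv hC _
  | insert a E _ ih =>
    set G' := Subgroup.closure ((insert a E : Finset G) : Set G) with hG'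
    have hle : Subgroup.closure (E : Set G) ≤ G' :=
      Subgroup.closure_mono (by simp)
    set N : Subgroup G' := (Subgroup.closure (E : Set G)).subgroupOf G' with hN
    have hNn : N.Normal := by
      constructor
      intro n hn g
      have : g * n * g⁻¹ = n := by
        apply Subtype.ext
        push_cast
        rw [h (g : G) (n : G)]
        group
      rw [this]
      exact hn
    have ha : a ∈ G' := Subgroup.subset_closure (by simp)
    refine hC.ext G' N ?_ ?_
    · exact hC.sub _ _ (Subgroup.subgroupOfEquivOfLe hle).toMonoidHom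
        (Subgroup.subgroupOfEquivOfLe hle).injective ih
    · refine cyc_mem hC hf _ ⟨⟨QuotientGroup.mk' N ⟨a, ha⟩, ?_⟩⟩
      have hmap : ∀ x : G, ∀ hx : x ∈ G', QuotientGroup.mk' N ⟨x, hx⟩ ∈
          Subgroup.zpowers (QuotientGroup.mk' N ⟨a, ha⟩) := by
        intro x hx
        induction hx using Subgroup.closure_induction with
        | mem x hxE =>
          rw [Finset.coe_insert, Set.mem_insert_iff] at hxE
          rcases hxE with rfl | hxE
          · exact Subgroup.mem_zpowers _
          · have h1 : QuotientGroup.mk' N ⟨x, Subgroup.subset_closure (by simp [hxE])⟩ = 1 :=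
              (QuotientGroup.eq_one_iff _).2 (Subgroup.subset_closure hxE)
            rw [h1]
            exact one_mem _
        | one =>
          have h1 : QuotientGroup.mk' N ⟨(1 : G), one_mem _⟩ = 1 := map_one _
          rw [h1]
          exact one_mem _
        | mul x y hx hy ihx ihy =>
          have h1 : QuotientGroup.mk' N ⟨x * y, mul_mem hx hy⟩ =
              QuotientGroup.mk' N ⟨x, hx⟩ * QuotientGroup.mk' N ⟨y, hy⟩ := rfl
          rw [h1]
          exact mul_mem ihx ihy
        | inv x hx ihx =>
          have h1 : QuotientGroup.mk' N ⟨x⁻¹, inv_mem hx⟩ = (QuotientGroup.mk' N ⟨x, hx⟩)⁻¹ := rfl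
          rw [h1]
          exact inv_mem ihx
      intro q
      obtain ⟨⟨x, hx⟩, rfl⟩ := QuotientGroup.mk'_surjective N q
      exact hmap x hx

theorem comm_mem (hC : ExtCl C) (hf : FinCl C) (G : Type) [Group G]
    (h : ∀ a b : G, a * b = b * a) : C G := by
  refine hC.union G fun L hL => ?_
  obtain ⟨E, rfl⟩ := hL
  exact closure_mem hC hf h E

end abelian

section ge

open Pool.Agent.R632.GE

/-- **`GE₂` of rings with a degree function.** -/
theorem ge2_ext {C : ∀ (G : Type) [Group G], Prop} (hC : ExtCl C) (hf : FinCl C) {R S : Type}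
    [Ring R] [Nontrivial R] [Ring S] [Nontrivial S]
    {D : R → WithBot ℕ} (hD : IsDegree R D) (ψ : R →+* S)
    (hS : C (Matrix (Fin 2) (Fin 2) S)ˣ) : C (GE2 R) := by
  let Ψ : (Matrix (Fin 2) (Fin 2) R)ˣ →* (Matrix (Fin 2) (Fin 2) S)ˣ :=
    Units.map ψ.mapMatrix.toMonoidHom
  have hΨv : ∀ u i j, (Ψ u).val i j = ψ (u.val i j) := fun u i j => rfl
  have hΨ : ∀ u ∈ AA hD, Ψ u = 1 → u = 1 := by
    intro u hu h
    apply Units.ext
    ext i j
    have h1 : D (u.val i j - (1 : (Matrix (Fin 2) (Fin 2) R)ˣ).val i j) ≤ 0 :=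
      hD.sub_le (hu.1 _ _) ((AA hD).one_mem.1 _ _)
    have h2 : ψ (u.val i j - (1 : (Matrix (Fin 2) (Fin 2) R)ˣ).val i j) = 0 := by
      rw [map_sub, ← hΨv, ← hΨv, h, map_one, sub_self]
    exact sub_eq_zero.1 (hD.eq_zero h1 ψ h2)
  have hA : C (AA hD) := by
    refine hC.sub _ _ (Ψ.comp (AA hD).subtype) ?_ hS
    rw [injective_iff_map_eq_one]
    intro u hu
    exact Subtype.ext (hΨ u u.2 hu)
  have hB' : C (BB hD) := ext_hom hC (dgA hD) (comm_mem hC hf _ (dgA_comm hD)) hA
  let T : Subgroup (Matrix (Fin 2) (Fin 2) R)ˣ := XX hD true ⊔ XX hD false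
  have hT : ∀ i, XX hD i ≤ T := by
    intro i
    cases i with
    | true => exact le_sup_left
    | false => exact le_sup_right
  let X : Bool → Subgroup T := fun i => (XX hD i).subgroupOf T
  have hX : ∀ i, C (X i) := by
    intro i
    refine hC.sub _ _ (Subgroup.subgroupOfEquivOfLe (hT i)).toMonoidHom
      (Subgroup.subgroupOfEquivOfLe (hT i)).injective ?_
    cases i with
    | true => exact hA
    | false => exact hB'
  have hRX : ∀ i z, RX X i z → RX (XX hD) i (z : (Matrix (Fin 2) (Fin 2) R)ˣ) := by
    intro i z hz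
    induction hz with
    | base i a ha ha' => exact RX.base i (a : (Matrix (Fin 2) (Fin 2) R)ˣ) ha ha'
    | step i a z ha ha' _ ih =>
      exact RX.step i (a : (Matrix (Fin 2) (Fin 2) R)ˣ) (z : (Matrix (Fin 2) (Fin 2) R)ˣ) ha ha' ih
  have hne : ∀ i z, RX X i z → z ≠ 1 := by
    intro i z hz h1
    exact RX_ne hD i z (hRX i z hz) (by rw [h1]; rfl)
  have hgen : X true ⊔ X false = ⊤ := by
    show (XX hD true).subgroupOf T ⊔ (XX hD false).subgroupOf T = ⊤
    rw [← Subgroup.subgroupOf_sup (hT true) (hT false)]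
    exact Subgroup.subgroupOf_self T
  have hamg := Pool.Agent.R632.GE.amg X hne hgen
  have hTC : C T := by
    refine ext_hom hC (Ψ.comp T.subtype) (am hC (X true) (X false) (X true ⊓ X false) hamg
      (Ψ.comp T.subtype) ?_ ?_ ?_) hS
    · rintro ⟨x, hxT⟩ ⟨hx, _⟩ hx1
      exact Subtype.ext (hΨ x hx hx1)
    · exact hC.sub _ _ (Subgroup.subtype _) Subtype.val_injective (hX true)
    · exact hC.sub _ _ (Subgroup.subtype _) Subtype.val_injective (hX false)
  exact hC.sub _ _ (Subgroup.inclusion (GE2_le hD))
    (Subgroup.inclusion_injective _) hTC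

end ge

end Pool.Agent.R632.BC
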